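import Mathlib
import Pool.Agent.N70.EO.Stm

/-!
Statements (NOT results) of the pieces of the project ES (helper70, problems MP_6e3ed7_al,
MP_e9d732_al, MP_dadaab_nt): for almost all `n`, the alternating fibre power of degree `n` of an
embedding problem, twisted by any character, has a regular solution if and only if it has a weak
solution.
-/

set_option autoImplicit false

namespace Pool.Agent.N70.ES

open Pool.Agent.H391R2 Pool.Agent.H391R2.T4 Pool.Agent.Y793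
open Pool.Agent.N70.EQ (FPk fpk)

/-! ### Weak solutions -/

/-- WF: fibre products of weakly solvable embedding problems are weakly solvable. -/
def St_wf : Prop :=
  ∀ (K L : Type) [Field K] [CharZero K] [Field L] [Algebra K L] [FiniteDimensional K L]
    [IsGalois K L] (E E' : Type) [Group E] [Group E'] (α : E →* (L ≃ₐ[K] L))
    (α' : E' →* (L ≃ₐ[K] L)), WeakSol K L E α → WeakSol K L E' α' →
    WeakSol K L (FPk α α') (α'.comp (fpk α α'))

/-- WG: two alternating fibre powers, side by side. -/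
def St_wg : Prop :=
  ∀ (Γ B : Type) [Group Γ] [Group B] (a : B →* Γ) (χ χ' : Γ →* ℤˣ) (n n' : ℕ),
    ∃ j : FPk (twProj a χ n) (twProj a χ' n') →* AltTw a (χ * χ') (n + n'),
      ∀ z, twProj a (χ * χ') (n + n') (j z) = twProj a χ' n' (z.1.2)

/-! ### Numbers -/

/-- S1: the structure of a coset of a numerical semigroup. -/
def St_s1 : Prop :=
  ∀ (M₁ M : Set ℕ), (∀ a ∈ M₁, ∀ b ∈ M₁, a + b ∈ M₁) →
    (∀ a ∈ M₁, ∀ b ∈ M, a + b ∈ M) → (∀ a ∈ M, ∀ b ∈ M, a + b ∈ M₁) → (∀ n ∈ M, Even n) →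
    (∃ n ∈ M, 0 < n) → ∃ J T : ℕ, 0 < J ∧ Even J ∧
      (((∀ n ∈ M, J ∣ n) ∧ ∀ s ≥ T, J * s ∈ M) ∨
        ((∀ n ∈ M, ∃ s : ℕ, Odd s ∧ n = J * s) ∧ ∀ s ≥ T, Odd s → J * s ∈ M))

open scoped Classical in
/-- SD: density. -/
def St_sd : Prop :=
  ∀ (M₁ M : Set ℕ) (A : ℕ → Prop), (∀ a ∈ M₁, ∀ b ∈ M₁, a + b ∈ M₁) →
    (∀ a ∈ M₁, ∀ b ∈ M, a + b ∈ M) → (∀ a ∈ M, ∀ b ∈ M, a + b ∈ M₁) → (∀ n ∈ M, Even n) →
    (∀ q ∈ M, 4 ≤ q → ∃ r₀ : ℕ, ∀ r ≥ r₀, Odd r → ∃ k₀ : ℕ, ∀ k ≥ k₀,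
      A (q * r * (2 * k + 1))) →
    ∀ ε : ℝ, 0 < ε → ∃ N : ℕ, ∀ x ≥ N,
      (((Finset.range x).filter fun n => n ∈ M ∧ ¬ A n).card : ℝ) ≤ ε * x

/-- SDO: SD from the density theorem DN of the project EO and S1. -/
def St_sdOf : Prop := Pool.Agent.N70.EO.St_dn → St_s1 → St_sd

end Pool.Agent.N70.ES
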