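import Mathlib
import Pool.Agent.N70.ES.Stm

/-!
Statements (NOT results) of further pieces of the project ES (helper70): splittings of alternating
fibre powers.
-/

set_option autoImplicit false

namespace Pool.Agent.N70.ES

open Pool.Agent.H391R2 Pool.Agent.Y793

/-- The alternating fibre power splits. -/
def Spl {H B : Type} [Group H] [Group B] (a : B →* H) (χ : H →* ℤˣ) (n : ℕ) : Prop :=
  ∃ s : H →* AltTw a χ n, ∀ h, twProj a χ n (s h) = h

/-- GI: induction from a subgroup. -/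
def St_gi : Prop :=
  ∀ (H B : Type) [Group H] [Finite H] [Group B] (a : B →* H), Function.Surjective a →
    ∀ (U : Subgroup H) (s : U →* B), (∀ u, a (s u) = u) → ∃ δ : H →* ℤˣ, Spl a δ U.index

/-- GD: doubling. -/
def St_gd : Prop :=
  ∀ (H B : Type) [Group H] [Group B] (a : B →* H) (χ δ : H →* ℤˣ) (n : ℕ),
    Spl a δ n → Spl a (χ ^ n) (2 * n)

/-- GS: orbits. -/
def St_gs : Prop :=
  ∀ (H B : Type) [Group H] [Finite H] [Group B] (a : B →* H) (χ : H →* ℤˣ) (n d : ℕ),
    Spl a χ n → (∀ (U : Subgroup H) (s : U →* B), (∀ u, a (s u) = u) → d ∣ U.index) → d ∣ n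

/-- GN: the degrees for which the alternating fibre power splits. -/
def St_gn : Prop :=
  ∀ (H B : Type) [Group H] [Finite H] [Group B] [Finite B] (a : B →* H), Function.Surjective a →
    ∀ I : ℕ, 0 < I → (∀ d : ℕ, d ∣ I ↔ ∀ (U : Subgroup H) (s : U →* B),
      (∀ u, a (s u) = u) → d ∣ U.index) →
    ∃ n₀ : ℕ, ∀ n ≥ n₀, (Odd I → I ∣ n → ∀ χ : H →* ℤˣ, Spl a χ n) ∧ (2 * I ∣ n → Spl a 1 n)

/-- GNO: GN from WG, GI and GD. -/
def St_gnOf : Prop := St_wg → St_gi → St_gd → St_gn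

end Pool.Agent.N70.ES
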