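import Mathlib
import Pool.Agent.N70.EP.Voc

/-!
Statement (NOT a result) of a piece on Malle's conjecture (helper70).
-/

set_option autoImplicit false

namespace Pool.Agent.N70.ES

open Pool.Agent.N70.EP.Voc

/-- TD: a subgroup of small index with trivial core in an alternating fibre power. -/
def St_td : Prop :=
  ∀ (W B : Type) [Group W] [Finite W] [Group B] [Finite B] (a : B →* W),
    Function.Surjective a → ∃ n₀ : ℕ, ∀ n ≥ n₀, ∀ χ : W →* ℤˣ,
      2 ≤ Nat.card (TwPow a χ n) ∧ ∃ U : Subgroup (TwPow a χ n), U.normalCore = ⊥ ∧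
        8 * U.index * (U.index + 1) ≤ Nat.card (TwPow a χ n)

end Pool.Agent.N70.ES
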