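import Mathlib
import Pool.Agent.N70.ES.Stm
import Pool.Agent.N70.EQ.Main
import Pool.Agent.N70.EP.VocB

/-!
Even degrees: the degree `q` of a weakly solvable alternating fibre power, times an odd number.
-/

set_option autoImplicit false
set_option linter.unusedSectionVars false
set_option linter.unusedSimpArgs false

namespace Pool.Agent.N70.ES

open Polynomial Pool.Agent.H391R2 Pool.Agent.H391R2.T4
open Pool.Agent.Y793 (AltTw twProj)
open Pool.Agent.N600.NS (IdxDvd Degs)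
open Pool.Agent.N70.EQ (FPk fpk fpk_surj card_ker_fpk Hyp mainN degs_hom twProj_surj finite_tw)

section hom

variable {H H' B : Type} [Group H] [Group H'] [Group B] (a : B →* H) (ρ : H' →* H)
  (χ : H →* ℤˣ) (q : ℕ)

/-- The labels of the fibre power of the fibre product. -/
def fpTw : FPk (twProj a χ q) ρ →* AltTw (fpk a ρ) (χ.comp ρ) q where
  toFun z := ⟨(⟨fun i => ⟨(z.1.1.1.1.left i, z.1.2), by
      have h1 : a (z.1.1.1.1.left i) = z.1.1.1.2 := (Subgroup.mem_inf.1 z.1.1.2).1 i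
      have h2 : z.1.1.1.2 = ρ z.1.2 := z.2
      change a (z.1.1.1.1.left i) = ρ z.1.2
      rw [h1, h2]⟩, z.1.1.1.1.right⟩, z.1.2), Subgroup.mem_inf.2 ⟨fun _ => rfl, by
      have h1 : Equiv.Perm.sign z.1.1.1.1.right = χ z.1.1.1.2 := (Subgroup.mem_inf.1 z.1.1.2).2
      have h2 : z.1.1.1.2 = ρ z.1.2 := z.2
      change Equiv.Perm.sign z.1.1.1.1.right = χ (ρ z.1.2)
      rw [h1, h2]⟩⟩
  map_one' := by
    apply Subtype.ext
    refine Prod.ext (SemidirectProduct.ext ?_ rfl) rfl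
    funext i
    rfl
  map_mul' z w := by
    apply Subtype.ext
    refine Prod.ext (SemidirectProduct.ext ?_ rfl) rfl
    funext i
    rfl

theorem twProj_fpTw (z : FPk (twProj a χ q) ρ) :
    twProj (fpk a ρ) (χ.comp ρ) q (fpTw a ρ χ q z) = fpk (twProj a χ q) ρ z := rfl

end hom

section main

variable (K L : Type) [Field K] [CharZero K] [Field L] [Algebra K L]
    [FiniteDimensional K L] [IsGalois K L]

theorem degs_of_weak {E : Type} [Group E] (α : E →* (L ≃ₐ[K] L)) (h : WeakSol K L E α) :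
    1 ∈ Degs K L E α := by
  obtain ⟨L', i1, i2, i3, i4, i5, i6, s, hs⟩ := h
  refine ⟨K, inferInstance, inferInstance, inferInstance, Module.finrank_self K, ?_⟩
  refine ⟨L', i1, i2, i5, i2, inferInstance, i6, i3, i4, s, fun σ x => ?_⟩
  rw [hs]
  exact (AlgEquiv.restrictNormal_commutes σ L x).symm

variable {B : Type} [Group B] [Finite B] (a : B →* (L ≃ₐ[K] L))

/-- If there are enough roots of unity in `L`. -/
theorem t9r (hh : Hyp) (ha : Function.Surjective a)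
    (hroots : HasEnoughRootsOfUnity L (Nat.card a.ker)) (χ : (L ≃ₐ[K] L) →* ℤˣ) (q : ℕ)
    (hq : Even q) (hq4 : 4 ≤ q) (hw : 1 ∈ Degs K L (AltTw a χ q) (twProj a χ q)) :
    ∃ r₀ : ℕ, ∀ r ≥ r₀, Odd r → ∃ k₀ : ℕ, ∀ k ≥ k₀,
      RegSol K L (AltTw a χ (q * r * (2 * k + 1))) (twProj a χ (q * r * (2 * k + 1))) := by
  have hq2 : 2 ≤ q := by omega
  have hfE : Finite (AltTw a χ q) := finite_tw a χ q
  obtain ⟨r₁, hr₁⟩ := N600.NS.reg_index K L _ _ (twProj_surj a χ q ha hq2)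
  refine ⟨r₁ + 1, fun r hr hodd => ?_⟩
  have hW : Finite (Wr (AltTw a χ q) r) := finite_wr _ _
  have h := (hr₁ r (by omega) (fun d hd => (hd 1 hw).trans (one_dvd r))).2
  obtain ⟨P, β, hβ, hβ2, hi, ht⟩ := hh.gw (L ≃ₐ[K] L) B a ha χ χ q r hq hq4 (by omega)
    (fun h => by
      obtain ⟨s, rfl⟩ := hodd
      rw [pow_succ, pow_mul, Int.units_sq, one_pow, one_mul])
  have hPtop : P.map (symProj (twProj a χ q) r) = ⊤ := by
    rw [Subgroup.eq_top_iff']
    intro ρ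
    obtain ⟨b, rfl⟩ := ha ρ
    obtain ⟨p, rfl⟩ := hβ b
    exact Subgroup.mem_map.2 ⟨p, p.2, (hβ2 p).symm⟩
  have hfS : Finite (SymEP (twProj a χ q) r) := inferInstance
  exact mainN hh K L _ _ h P (q * r) hPtop (Even.mul_right hq _)
    (Nat.mul_pos (by omega) (by omega)) χ hi β hβ a hβ2 ht hroots

/-- In general. -/
theorem t9 (hh : Hyp) (ha : Function.Surjective a) (χ : (L ≃ₐ[K] L) →* ℤˣ) (q : ℕ)
    (hq : Even q) (hq4 : 4 ≤ q) (hw : WeakSol K L (AltTw a χ q) (twProj a χ q)) :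
    ∃ r₀ : ℕ, ∀ r ≥ r₀, Odd r → ∃ k₀ : ℕ, ∀ k ≥ k₀,
      RegSol K L (AltTw a χ (q * r * (2 * k + 1))) (twProj a χ (q * r * (2 * k + 1))) := by
  obtain ⟨L', i1, i2, i3, i4, i5, i6, hroots⟩ := hh.ru K L (Nat.card a.ker) Nat.card_pos
  have hfin : Finite (FPk a (AlgEquiv.restrictNormalHom (F := K) (K₁ := L') L)) :=
    inferInstance
  have h1 := hh.ri K L L' _ _ 1 (degs_of_weak K L _ hw)
  have h2 := degs_hom K L' _ (twProj (fpk a (AlgEquiv.restrictNormalHom (F := K) (K₁ := L') L))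
    (χ.comp (AlgEquiv.restrictNormalHom (F := K) (K₁ := L') L)) q)
    (fpTw a (AlgEquiv.restrictNormalHom (F := K) (K₁ := L') L) χ q)
    (twProj_fpTw a (AlgEquiv.restrictNormalHom (F := K) (K₁ := L') L) χ q) h1
  obtain ⟨r₀, hr₀⟩ := t9r K L' (fpk a (AlgEquiv.restrictNormalHom (F := K) (K₁ := L') L)) hh
    (fpk_surj a _ ha) (by rw [card_ker_fpk]; exact hroots) _ q hq hq4 h2
  refine ⟨r₀, fun r hr hodd => ?_⟩
  obtain ⟨k₀, hk₀⟩ := hr₀ r hr hodd
  exact ⟨k₀, fun k hk => hh.rt K L L' B a χ _ (hk₀ k hk)⟩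

end main

end Pool.Agent.N70.ES
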