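import Mathlib
import Pool.Agent.N70.ES.Q
import Pool.Agent.N70.EO.VocEB

/-!
For almost all degrees weak solutions give regular solutions.
-/

set_option autoImplicit false
set_option linter.unusedSectionVars false
set_option linter.unusedSimpArgs false

namespace Pool.Agent.N70.ES

open Polynomial Pool.Agent.H391R2 Pool.Agent.H391R2.T4
open Pool.Agent.Y793 (AWr AltTw twProj regSol_iso)
open Pool.Agent.TH444.TW (RSK)
open Pool.Agent.N600.NS (IdxDvd Degs)
open Pool.Agent.N600.UK (Out cls)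
open Pool.Agent.N70.EP (AlmostAll transfer twTrans rsk_tw pB pB_surj FB)
open Pool.Agent.N70.EQ (FPk fpk)
open Pool.Agent.N70.EO.Voc (AlmostAllNumbers)
open Pool.Agent.N70.EO (aan_mono aan_and aan_iff aan_large idx_thm8 hypO)

/-- The inputs. -/
structure HypS : Prop where
  wf : St_wf
  wg : St_wg
  sd : St_sd

open scoped Classical in
theorem aan_of {W : Set ℕ} {A : ℕ → Prop} (h : ∀ ε : ℝ, 0 < ε → ∃ N : ℕ, ∀ x ≥ N,
      (((Finset.range x).filter fun n => n ∈ W ∧ ¬ A n).card : ℝ) ≤ ε * x) :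
    AlmostAllNumbers (fun n => n ∈ W → A n) := by
  have h0 : ∀ x : ℕ, ((Finset.range x).filter fun n => ¬ (n ∈ W → A n)) =
      ((Finset.range x).filter fun n => n ∈ W ∧ ¬ A n) := by
    intro x
    refine Finset.filter_congr fun n _ => ?_
    exact Classical.not_imp
  intro ε hε
  obtain ⟨N, hN⟩ := h ε hε
  refine ⟨N, fun x hx => ?_⟩
  refine le_trans (le_of_eq ?_) (hN x hx)
  rw [← h0]
  congr!

open scoped Classical in
theorem aan_forall {ι : Type} [Finite ι] {A : ι → ℕ → Prop} (h : ∀ i, AlmostAllNumbers (A i)) :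
    AlmostAllNumbers (fun n => ∀ i, A i n) := by
  obtain ⟨hf⟩ := nonempty_fintype ι
  have h1 : ∀ s : Finset ι, AlmostAllNumbers (fun n => ∀ i ∈ s, A i n) := by
    intro s
    induction s using Finset.induction_on with
    | empty => exact aan_large 0 fun n _ i hi => absurd hi (Finset.notMem_empty i)
    | insert i s _ ih =>
      refine aan_mono (aan_and (h i) ih) fun n hn j hj => ?_
      rcases Finset.mem_insert.1 hj with rfl | hj
      · exact hn.1
      · exact hn.2 j hj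
  exact aan_mono (h1 Finset.univ) fun n hn i => hn i (Finset.mem_univ i)

section semi

variable {M : Set ℕ}

theorem mul_mem_semi (hadd : ∀ a ∈ M, ∀ b ∈ M, a + b ∈ M) {a : ℕ} (ha : a ∈ M) (k : ℕ) :
    (k + 1) * a ∈ M := by
  induction k with
  | zero => rwa [zero_add, one_mul]
  | succ k ih =>
    have h1 : (k + 1 + 1) * a = (k + 1) * a + a := by ring
    rw [h1]
    exact hadd _ ih _ ha

theorem semi_two (hadd : ∀ a ∈ M, ∀ b ∈ M, a + b ∈ M) {D s : ℕ} (h1 : D * s ∈ M)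
    (h2 : D * (s + 1) ∈ M) : ∀ m ≥ (s + 1) * (s + 1), D * m ∈ M := by
  intro m hm
  rcases Nat.eq_zero_or_pos s with rfl | hs
  · have h3 := mul_mem_semi hadd h2 (m - 1)
    have h4 : (m - 1 + 1) * (D * (0 + 1)) = D * m := by
      have h5 : m - 1 + 1 = m := by omega
      rw [h5]
      ring
    rwa [h4] at h3
  have h3 : m % s < s := Nat.mod_lt _ hs
  have h4 := Nat.div_add_mod m s
  have h5 : s + 1 ≤ m / s := by
    rw [Nat.le_div_iff_mul_le hs]
    nlinarith
  obtain ⟨k, hk⟩ : ∃ k, m / s = m % s + (k + 1) := ⟨m / s - m % s - 1, by omega⟩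
  have h6 := mul_mem_semi hadd h1 k
  rcases Nat.eq_zero_or_pos (m % s) with h7 | h7
  · have h8 : D * m = (k + 1) * (D * s) := by
      rw [← h4, hk, h7]
      ring
    rw [h8]
    exact h6
  · have h8 := mul_mem_semi hadd h2 (m % s - 1)
    have h9 : m % s - 1 + 1 = m % s := by omega
    rw [h9] at h8
    have h10 : D * m = (k + 1) * (D * s) + m % s * (D * (s + 1)) := by
      conv_lhs => rw [← h4, hk]
      ring
    rw [h10]
    exact hadd _ h6 _ h8

open scoped Classical in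
theorem exists_consec {D : ℕ} (hD : 0 < D) (h : AlmostAll D (fun n => n ∈ M)) :
    ∃ s : ℕ, D * s ∈ M ∧ D * (s + 1) ∈ M := by
  by_contra hcon
  have hcon' : ∀ j : ℕ, ∃ e : ℕ, e < 2 ∧ D * (2 * j + e) ∉ M := by
    intro j
    by_contra h1
    apply hcon
    refine ⟨2 * j, ?_, ?_⟩
    · by_contra h2
      exact h1 ⟨0, by omega, by rwa [add_zero]⟩
    · by_contra h2
      exact h1 ⟨1, by omega, h2⟩
  choose e he1 he2 using hcon'
  have hD' : (0 : ℝ) < D := by exact_mod_cast hD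
  obtain ⟨N, hN⟩ := h (1 / (4 * D)) (by positivity)
  have h1 := hN (D * (2 * (N + 1))) (by nlinarith)
  have h2 : (N + 1) ≤ ((Finset.range (D * (2 * (N + 1)))).filter
      fun n => D ∣ n ∧ ¬ n ∈ M).card := by
    calc N + 1 = (Finset.range (N + 1)).card := (Finset.card_range _).symm
      _ = ((Finset.range (N + 1)).image fun j => D * (2 * j + e j)).card := by
          rw [Finset.card_image_of_injective]
          intro j j' hjj
          have h3 : 2 * j + e j = 2 * j' + e j' := Nat.eq_of_mul_eq_mul_left hD hjj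
          have h4 := he1 j
          have h5 := he1 j'
          omega
      _ ≤ _ := by
          refine Finset.card_le_card ?_
          intro n hn
          obtain ⟨j, hj, rfl⟩ := Finset.mem_image.1 hn
          rw [Finset.mem_range] at hj
          refine Finset.mem_filter.2 ⟨Finset.mem_range.2 ?_, Dvd.intro _ rfl, he2 j⟩
          have h4 := he1 j
          exact Nat.mul_lt_mul_of_pos_left (by omega) hD
  have h3 : ((N + 1 : ℕ) : ℝ) ≤ 1 / (4 * D) * ((D * (2 * (N + 1)) : ℕ) : ℝ) :=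
    le_trans (Nat.cast_le.2 h2) h1
  push_cast at h3
  have h4 : 1 / (4 * (D : ℝ)) * (D * (2 * (N + 1))) = (N + 1) / 2 := by
    field_simp
    ring
  rw [h4] at h3
  have h5 : (0 : ℝ) ≤ N := Nat.cast_nonneg N
  linarith

theorem semi_large (hadd : ∀ a ∈ M, ∀ b ∈ M, a + b ∈ M) {D : ℕ} (hD : 0 < D)
    (h : AlmostAll D (fun n => n ∈ M)) : ∃ n₀ : ℕ, ∀ n ≥ n₀, D ∣ n → n ∈ M := by
  obtain ⟨s, h1, h2⟩ := exists_consec hD h
  refine ⟨D * ((s + 1) * (s + 1)), fun n hn hd => ?_⟩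
  obtain ⟨m, rfl⟩ := hd
  exact semi_two hadd h1 h2 m (Nat.le_of_mul_le_mul_left hn hD)

end semi

section weak

variable {K L : Type} [Field K] [CharZero K] [Field L] [Algebra K L]
    [FiniteDimensional K L] [IsGalois K L]

theorem weakSol_map {E E' : Type} [Group E] [Group E'] (α : E →* (L ≃ₐ[K] L))
    (α' : E' →* (L ≃ₐ[K] L)) (j : E →* E') (hj : ∀ z, α' (j z) = α z) (h : WeakSol K L E α) :
    WeakSol K L E' α' := by
  obtain ⟨L', i1, i2, i3, i4, i5, i6, s, hs⟩ := h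
  exact ⟨L', i1, i2, i3, i4, i5, i6, j.comp s, fun ρ => (hj _).trans (hs ρ)⟩

variable {B : Type} [Group B] (a : B →* (L ≃ₐ[K] L))

theorem weak_add (hh : HypS) (χ χ' : (L ≃ₐ[K] L) →* ℤˣ) (n n' : ℕ)
    (h : WeakSol K L (AltTw a χ n) (twProj a χ n))
    (h' : WeakSol K L (AltTw a χ' n') (twProj a χ' n')) :
    WeakSol K L (AltTw a (χ * χ') (n + n')) (twProj a (χ * χ') (n + n')) := by
  obtain ⟨j, hj⟩ := hh.wg _ _ a χ χ' n n'
  exact weakSol_map _ _ j hj (hh.wf K L _ _ _ _ h h')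

theorem sq_char (χ : (L ≃ₐ[K] L) →* ℤˣ) : χ * χ = 1 := by
  apply MonoidHom.ext
  intro x
  exact Int.units_mul_self (χ x)

/-- **For almost all degrees weak solutions give regular solutions.** -/
theorem weak_dens (hh : HypS) [Finite B] (ha : Function.Surjective a) :
    AlmostAllNumbers (fun n => ∀ χ : (L ≃ₐ[K] L) →* ℤˣ,
      WeakSol K L (AltTw a χ n) (twProj a χ n) → RegSol K L (AltTw a χ n) (twProj a χ n)) := by
  obtain ⟨I, hI0, hI, h1, h2, -⟩ := idx_thm8 K L a hypO ha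
  by_cases hIo : Odd I
  · exact aan_mono (aan_iff.2 (h2 hIo)) fun n hn χ hw => hn (h1 χ n hw) χ
  have hIe : Even I := Nat.not_odd_iff_even.1 hIo
  have hfin := EP.finite_hom (L ≃ₐ[K] L)
  refine aan_forall fun χ => ?_
  exact aan_of (hh.sd {n | WeakSol K L (AltTw a 1 n) (twProj a 1 n)}
    {n | WeakSol K L (AltTw a χ n) (twProj a χ n)}
    (fun n => RegSol K L (AltTw a χ n) (twProj a χ n))
    (fun n hn n' hn' => by
      have h3 := weak_add a hh 1 1 n n' hn hn'
      rwa [mul_one] at h3)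
    (fun n hn n' hn' => by
      have h3 := weak_add a hh 1 χ n n' hn hn'
      rwa [one_mul] at h3)
    (fun n hn n' hn' => by
      have h3 := weak_add a hh χ χ n n' hn hn'
      rwa [sq_char] at h3)
    (fun n hn => (even_iff_two_dvd.1 hIe).trans (h1 χ n hn) |> even_iff_two_dvd.2)
    (fun q hq hq4 => t9 K L a hypO.base ha χ q
      ((even_iff_two_dvd.1 hIe).trans (h1 χ q hq) |> even_iff_two_dvd.2) hq4 hq))

/-- Weak solutions for all large degrees. -/
theorem weak_large (hh : HypS) [Finite B] (ha : Function.Surjective a) :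
    ∃ I : ℕ, 0 < I ∧ (∀ d : ℕ, d ∣ I ↔ ∀ m ∈ Degs K L B a, d ∣ m) ∧
      (∀ (χ : (L ≃ₐ[K] L) →* ℤˣ) (n : ℕ), WeakSol K L (AltTw a χ n) (twProj a χ n) → I ∣ n) ∧
      ∃ n₀ : ℕ, ∀ n ≥ n₀,
        (Odd I → I ∣ n → ∀ χ : (L ≃ₐ[K] L) →* ℤˣ,
          WeakSol K L (AltTw a χ n) (twProj a χ n)) ∧
        (2 * I ∣ n → WeakSol K L (AltTw a 1 n) (twProj a 1 n)) := by
  obtain ⟨I, hI0, hI, h1, h2, h3, -⟩ := idx_thm8 K L a hypO ha
  have hfin := EP.finite_hom (L ≃ₐ[K] L)
  refine ⟨I, hI0, hI, h1, ?_⟩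
  have hadd : ∀ n ∈ {n | WeakSol K L (AltTw a 1 n) (twProj a 1 n)},
      ∀ n' ∈ {n | WeakSol K L (AltTw a 1 n) (twProj a 1 n)},
      n + n' ∈ {n | WeakSol K L (AltTw a 1 n) (twProj a 1 n)} := by
    intro n hn n' hn'
    have h3 := weak_add a hh 1 1 n n' hn hn'
    rwa [mul_one] at h3
  have hwr : ∀ (χ : (L ≃ₐ[K] L) →* ℤˣ) (n : ℕ), RegSol K L (AltTw a χ n) (twProj a χ n) →
      WeakSol K L (AltTw a χ n) (twProj a χ n) := by
    intro χ n h
    have hW : Finite (Wr B n) := finite_wr B n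
    exact N600.NS.weak_of_reg K L _ _ h
  obtain ⟨n₁, hn₁⟩ := semi_large hadd (D := 2 * I) (by omega)
    (EP.almostAll_mono h3 fun n hn => hwr 1 n hn)
  by_cases hIo : Odd I
  · obtain ⟨n₂, hn₂⟩ := semi_large hadd hI0
      (EP.almostAll_mono (h2 hIo) fun n hn => hwr 1 n (hn 1))
    have h5 : ∀ χ : (L ≃ₐ[K] L) →* ℤˣ, ∃ m : ℕ, I ∣ m ∧
        WeakSol K L (AltTw a χ m) (twProj a χ m) := by
      intro χ
      obtain ⟨s, hs, -⟩ := exists_consec (M := {n | WeakSol K L (AltTw a χ n) (twProj a χ n)}) hI0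
        (EP.almostAll_mono (h2 hIo) fun n hn => hwr χ n (hn χ))
      exact ⟨I * s, Dvd.intro _ rfl, hs⟩
    choose m hm1 hm2 using h5
    obtain ⟨m₀, hm₀⟩ := (Set.finite_range m).bddAbove
    refine ⟨n₁ + n₂ + m₀, fun n hn => ⟨fun _ hd χ => ?_, fun hd => hn₁ n (by omega) hd⟩⟩
    have h6 : m χ ≤ m₀ := hm₀ ⟨χ, rfl⟩
    obtain ⟨t, rfl⟩ : ∃ t, n = t + m χ := ⟨n - m χ, by omega⟩
    have h7 : I ∣ t := (Nat.dvd_add_left (hm1 χ)).1 hd
    have h8 := weak_add a hh 1 χ t (m χ) (hn₂ t (by omega) h7) (hm2 χ)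
    rwa [one_mul] at h8
  · exact ⟨n₁, fun n hn => ⟨fun h => absurd h hIo, fun hd => hn₁ n hn hd⟩⟩

end weak

/-- The uniform form. -/
theorem split_dens (hh : HypS) {H B : Type} [Group H] [Finite H] [Group B] [Finite B] (a : B →* H)
    (ha : Function.Surjective a) :
    AlmostAllNumbers (fun n => ∀ χ : H →* ℤˣ,
      (∃ s : H →* AltTw a χ n, ∀ h, twProj a χ n (s h) = h) → RSK ℚ (twProj a χ n)) := by
  obtain ⟨K₀, L₀, i1, i2, i3, i4, i5, i6, e₀, h⟩ := transfer H
  have h1 := weak_dens (K := K₀) (L := L₀) ((e₀.symm : H →* (L₀ ≃ₐ[K₀] L₀)).comp a) hh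
    (e₀.symm.surjective.comp ha)
  refine aan_mono h1 fun n hn χ hs => ?_
  obtain ⟨s, hs⟩ := hs
  have hW : Finite (Wr B n) := finite_wr B n
  refine rsk_tw a χ n e₀ h (hn _ ?_)
  refine weakSol_of_split K₀ L₀ _ _ ((((twTrans e₀ a χ n).symm : AltTw a χ n →* _).comp
    s).comp (e₀ : (L₀ ≃ₐ[K₀] L₀) →* H)) fun ρ => ?_
  have h2 : ∀ z : AltTw a χ n, twProj ((e₀.symm : H →* (L₀ ≃ₐ[K₀] L₀)).comp a)
      (χ.comp (e₀ : (L₀ ≃ₐ[K₀] L₀) →* H)) n ((twTrans e₀ a χ n).symm z) =
        e₀.symm (twProj a χ n z) := by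
    intro z
    obtain ⟨w, rfl⟩ := (twTrans e₀ a χ n).surjective z
    rw [MulEquiv.symm_apply_apply]
    exact (e₀.symm_apply_apply _).symm
  refine (h2 _).trans ?_
  rw [hs]
  exact e₀.symm_apply_apply ρ

section kernels

variable (K L : Type) [Field K] [CharZero K] [Field L] [Algebra K L]
    [FiniteDimensional K L] [IsGalois K L] (G : Type) [Group G] [Finite G]

/-- For almost all `n` weakly solvable embedding problems with kernel `G ≀ A_n` have regular
solutions. -/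
theorem ker_dens (hh : HypS) [Nontrivial G] (hZ : ∀ z : G, (∀ g : G, z * g = g * z) → z = 1) :
    AlmostAllNumbers (fun n => ∀ (X : Type) [Group X] (α : X →* (L ≃ₐ[K] L)),
      Function.Surjective α → Nonempty (α.ker ≃* AWr G n) → WeakSol K L X α →
        RegSol K L X α) := by
  have hfin : Finite (MulAut G) := Finite.of_injective (fun a : MulAut G => (a : G → G))
    DFunLike.coe_injective
  have hfinO : Finite (Out G) := inferInstance
  have hfinH : Finite ((L ≃ₐ[K] L) →* Out G) :=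
    Finite.of_injective (fun f : (L ≃ₐ[K] L) →* Out G => (f : (L ≃ₐ[K] L) → Out G))
      DFunLike.coe_injective
  have h1 : ∀ o : (L ≃ₐ[K] L) →* Out G, AlmostAllNumbers (fun n =>
      ∀ χ : (L ≃ₐ[K] L) →* ℤˣ, WeakSol K L (AltTw (pB o) χ n) (twProj (pB o) χ n) →
        RegSol K L (AltTw (pB o) χ n) (twProj (pB o) χ n)) :=
    fun o => weak_dens (pB o) hh (pB_surj o)
  refine aan_mono (aan_and (aan_forall h1) (aan_large (2 * (Nat.card G + 4)) fun n hn => hn))
    fun n hn X _ α hα hι hw => ?_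
  obtain ⟨o, χ, e, he⟩ := N891.EP.t_aut G hZ _ hn.2 X (L ≃ₐ[K] L) α hα hι
  have h2 : WeakSol K L (AltTw (pB o) χ n) (twProj (pB o) χ n) :=
    weakSol_map α _ (e : X →* AltTw (pB o) χ n) (fun z => he z) hw
  refine regSol_iso K L _ _ _ _ e.symm (fun z => ?_) (hn.1 o χ h2)
  obtain ⟨x, rfl⟩ := e.surjective z
  rw [e.symm_apply_apply]
  exact (he x).symm

end kernels

end Pool.Agent.N70.ES
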