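import Mathlib
import Pool.Agent.N70.ES.Stm

/-!
Fibre products of weakly solvable embedding problems.
-/

set_option autoImplicit false

namespace Pool.Agent.N70.ES

open Pool.Agent.H391R2 Pool.Agent.H391R2.T4 Pool.Agent.Y793
open Pool.Agent.N70.EQ (FPk fpk)

/-- Two Galois extensions containing `L` in a common one. -/
theorem exists_common (K L L₁ L₂ : Type) [Field K] [CharZero K] [Field L] [Algebra K L]
    [FiniteDimensional K L] [IsGalois K L] [Field L₁] [Algebra K L₁] [Algebra L L₁]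
    [IsScalarTower K L L₁] [FiniteDimensional K L₁] [IsGalois K L₁] [Field L₂] [Algebra K L₂]
    [Algebra L L₂] [IsScalarTower K L L₂] [FiniteDimensional K L₂] [IsGalois K L₂] :
    ∃ (M : Type) (_ : Field M) (_ : Algebra K M) (_ : Algebra L M) (_ : Algebra L₁ M)
      (_ : Algebra L₂ M) (_ : IsScalarTower K L M) (_ : IsScalarTower K L₁ M)
      (_ : IsScalarTower K L₂ M) (_ : IsScalarTower L L₁ M) (_ : IsScalarTower L L₂ M),
      FiniteDimensional K M ∧ IsGalois K M := by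
  let Ω := AlgebraicClosure L₁
  have t1 : IsScalarTower K L Ω := .of_algebraMap_eq fun x => by
    rw [IsScalarTower.algebraMap_apply K L₁ Ω, IsScalarTower.algebraMap_apply L L₁ Ω,
      ← IsScalarTower.algebraMap_apply K L L₁]
  have halg : Algebra.IsAlgebraic L L₂ := Algebra.IsAlgebraic.tower_top (K := K) L
  let j : L₂ →ₐ[L] Ω := IsAlgClosed.lift
  let F₁ : IntermediateField K Ω := (IsScalarTower.toAlgHom K L₁ Ω).fieldRange
  let F₂ : IntermediateField K Ω := (j.restrictScalars K).fieldRange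
  let e₁ : L₁ ≃ₐ[K] F₁ := AlgEquiv.ofInjectiveField (IsScalarTower.toAlgHom K L₁ Ω)
  let e₂ : L₂ ≃ₐ[K] F₂ := AlgEquiv.ofInjectiveField (j.restrictScalars K)
  have g1 : IsGalois K F₁ := IsGalois.of_algEquiv e₁
  have g2 : IsGalois K F₂ := IsGalois.of_algEquiv e₂
  have f1 : FiniteDimensional K F₁ := LinearEquiv.finiteDimensional e₁.toLinearEquiv
  have f2 : FiniteDimensional K F₂ := LinearEquiv.finiteDimensional e₂.toLinearEquiv
  let M : IntermediateField K Ω := F₁ ⊔ F₂
  let k₁ : L₁ →ₐ[K] M := (IntermediateField.inclusion (le_sup_left : F₁ ≤ M)).comp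
    (e₁ : L₁ →ₐ[K] F₁)
  let k₂ : L₂ →ₐ[K] M := (IntermediateField.inclusion (le_sup_right : F₂ ≤ M)).comp
    (e₂ : L₂ →ₐ[K] F₂)
  have hk₁ : ∀ x, ((k₁ x : M) : Ω) = algebraMap L₁ Ω x := fun x => rfl
  have hk₂ : ∀ x, ((k₂ x : M) : Ω) = j x := fun x => rfl
  let a1 : Algebra L₁ M := k₁.toRingHom.toAlgebra
  let a2 : Algebra L₂ M := k₂.toRingHom.toAlgebra
  let a0 : Algebra L M := (k₁.toRingHom.comp (algebraMap L L₁)).toAlgebra
  refine ⟨M, inferInstance, inferInstance, a0, a1, a2, ?_, ?_, ?_, ?_, ?_, ?_, ?_⟩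
  · refine IsScalarTower.of_algebraMap_eq fun x => ?_
    change algebraMap K M x = k₁ (algebraMap L L₁ (algebraMap K L x))
    rw [← IsScalarTower.algebraMap_apply, k₁.commutes]
  · exact IsScalarTower.of_algebraMap_eq fun x => (k₁.commutes x).symm
  · exact IsScalarTower.of_algebraMap_eq fun x => (k₂.commutes x).symm
  · exact IsScalarTower.of_algebraMap_eq fun x => rfl
  · refine IsScalarTower.of_algebraMap_eq fun x => ?_
    change k₁ (algebraMap L L₁ x) = k₂ (algebraMap L L₂ x)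
    apply Subtype.ext
    rw [hk₁, hk₂, j.commutes, ← IsScalarTower.algebraMap_apply]
  · exact IntermediateField.finiteDimensional_sup F₁ F₂
  · infer_instance

theorem t_wf : St_wf := by
  intro K L _ _ _ _ _ _ E E' _ _ α α' h h'
  obtain ⟨L₁, i1, i2, i3, i4, i5, i6, s, hs⟩ := h
  obtain ⟨L₂, j1, j2, j3, j4, j5, j6, s', hs'⟩ := h'
  obtain ⟨M, l1, l2, l3, l4, l5, l6, l7, l8, l9, l10, l11, l12⟩ := exists_common K L L₁ L₂
  let r₁ : (M ≃ₐ[K] M) →* (L₁ ≃ₐ[K] L₁) := AlgEquiv.restrictNormalHom L₁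
  let r₂ : (M ≃ₐ[K] M) →* (L₂ ≃ₐ[K] L₂) := AlgEquiv.restrictNormalHom L₂
  have h1 : ∀ σ : M ≃ₐ[K] M, α (s (r₁ σ)) = σ.restrictNormal L := by
    intro σ
    rw [hs]
    ext x
    apply (algebraMap L M).injective
    rw [AlgEquiv.restrictNormal_commutes, IsScalarTower.algebraMap_apply L L₁ M,
      AlgEquiv.restrictNormal_commutes, IsScalarTower.algebraMap_apply L L₁ M]
    exact AlgEquiv.restrictNormal_commutes σ L₁ (algebraMap L L₁ x)
  have h2 : ∀ σ : M ≃ₐ[K] M, α' (s' (r₂ σ)) = σ.restrictNormal L := by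
    intro σ
    rw [hs']
    ext x
    apply (algebraMap L M).injective
    rw [AlgEquiv.restrictNormal_commutes, IsScalarTower.algebraMap_apply L L₂ M,
      AlgEquiv.restrictNormal_commutes, IsScalarTower.algebraMap_apply L L₂ M]
    exact AlgEquiv.restrictNormal_commutes σ L₂ (algebraMap L L₂ x)
  refine ⟨M, l1, l2, l11, l12, l3, l6, ((s.comp r₁).prod (s'.comp r₂)).codRestrict (FPk α α')
    fun σ => ?_, fun σ => ?_⟩
  · change α (s (r₁ σ)) = α' (s' (r₂ σ))
    rw [h1, h2]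
  · exact h2 σ

end Pool.Agent.N70.ES
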