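import Mathlib
import Pool.Agent.N70.ES.T
import Pool.Agent.N70.ES.WF
import Pool.Agent.N394.ES.WG
import Pool.Agent.N281.ES.S1
import Pool.Agent.N137.ES.SD
import Pool.Agent.N615.EO.DN1
import Pool.Agent.N607.EO.DNO

/-!
The inputs of the project ES, all proved.
-/

set_option autoImplicit false

namespace Pool.Agent.N70.ES

/-- All inputs. -/
theorem hypS : HypS where
  wf := t_wf
  wg := Pool.Agent.N394.ES.t_wg
  sd := Pool.Agent.N137.ES.t_sdo (Pool.Agent.N607.EO.t_dno Pool.Agent.N615.EO.t_dna)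
    Pool.Agent.N281.ES.t_s1

end Pool.Agent.N70.ES
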