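import Mathlib
import Pool.Agent.N70.ES.Stm2

/-!
The orbits of a splitting.
-/

set_option autoImplicit false

namespace Pool.Agent.N70.ES

open Pool.Agent.H391R2 Pool.Agent.Y793

theorem t_gs : St_gs := by
  intro H B _ _ _ a χ n d hs hd
  obtain ⟨s, hs⟩ := hs
  let P : H →* Equiv.Perm (Fin n) := MonoidHom.mk' (fun h => (s h).1.1.right) (by
    intro h h'
    rw [map_mul]
    rfl)
  let _ : MulAction H (Fin n) := MulAction.compHom (Fin n) P
  have hsm : ∀ (h : H) (i : Fin n), h • i = (s h).1.1.right i := fun _ _ => rfl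
  have h1 : ∀ i : Fin n, d ∣ Nat.card (MulAction.orbit H i) := by
    intro i
    have h2 : ∀ u : MulAction.stabilizer H i, (s u).1.1.right i = i := fun u => u.2
    have h3 : ∀ u : MulAction.stabilizer H i, ((s u).1.1.right)⁻¹ i = i := by
      intro u
      rw [Equiv.Perm.inv_eq_iff_eq]
      exact (h2 u).symm
    let f : MulAction.stabilizer H i →* B := MonoidHom.mk' (fun u => (s u).1.1.left i) (by
      intro u u'
      have h4 : s ((u * u' : MulAction.stabilizer H i) : H) = s u * s u' := map_mul s _ _
      rw [h4]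
      change (s u).1.1.left i * (s u').1.1.left (((s u).1.1.right)⁻¹ i) = _
      rw [h3])
    have h5 := hd (MulAction.stabilizer H i) f (fun u => by
      change a ((s u).1.1.left i) = u
      rw [(Subgroup.mem_inf.1 (s u).2).1 i]
      exact hs u)
    rw [MulAction.index_stabilizer] at h5
    exact h5
  have h6 := Nat.card_congr (MulAction.selfEquivSigmaOrbits H (Fin n))
  obtain ⟨hf⟩ := nonempty_fintype (Quotient (MulAction.orbitRel H (Fin n)))
  rw [Nat.card_fin, Nat.card_sigma] at h6
  rw [h6]
  exact Finset.dvd_sum fun ω _ => h1 _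

end Pool.Agent.N70.ES
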