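import Mathlib
import Pool.Agent.N70.EO.VocE

/-!
# Vocabulary: splittings of alternating fibre powers
-/

set_option autoImplicit false

namespace Pool.Agent.N70.ES.Voc

open Pool.Agent.N70.EP.Voc
open Pool.Agent.N70.EO.Voc (AlmostAllNumbers)

/-- The homomorphism `π : E → W` splits. -/
def Splits {E W : Type} [Group E] [Group W] (π : E →* W) : Prop :=
  ∃ s : W →* E, ∀ w, π (s w) = w

/-- The projection `twPr α χ n : TwPow α χ n → W` splits. -/
def TwSplit {B W : Type} [Group B] [Group W] (α : B →* W) (χ : W →* ℤˣ) (n : ℕ) : Prop :=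
  Splits (twPr α χ n)

/-- The projection `twPr α χ n` splits, or `I` is odd and divides `n`, or `χ = 1` and `2 I` divides
`n`. -/
def TwGood {B W : Type} [Group B] [Group W] (α : B →* W) (I n : ℕ) (χ : W →* ℤˣ) : Prop :=
  TwSplit α χ n ∨ (Odd I ∧ I ∣ n) ∨ (χ = 1 ∧ 2 * I ∣ n)

/-- The sets `A₁ α χ` are large: if `α : B → W` is a surjective homomorphism of finite groups of index
`I`, then, for almost all natural numbers `n`, `n` is in `A₁ α χ` for all characters `χ` such that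
`twPr α χ n` splits, and for all `χ` if `I` is odd and divides `n`, and for `χ = 1` if `2 I` divides
`n`. -/
def LargeHom (A₁ : ∀ (W B : Type) [Group W] [Group B], (B →* W) → (W →* ℤˣ) → Set ℕ) : Prop :=
  ∀ (W B : Type) [Group W] [Finite W] [Group B] [Finite B] (α : B →* W),
    Function.Surjective α → ∀ I : ℕ, IsSplittingIndex α I →
      AlmostAllNumbers (fun n => ∀ χ : W →* ℤˣ, TwGood α I n χ → n ∈ A₁ W B α χ)

/-- `A` holds for all `n = q r (2 k + 1)`, `q ≥ 4` even, `r ≥ r₀(q)`, `k ≥ k₀(q, r)`. -/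
def EvenFamily (A : ℕ → Prop) : Prop :=
  ∀ q : ℕ, Even q → 4 ≤ q → ∃ r₀ : ℕ, ∀ r ≥ r₀, ∃ k₀ : ℕ, ∀ k ≥ k₀, A (q * r * (2 * k + 1))

/-- `A` holds for all `n = u r (2 k + 1)`, `u ≡ 3 mod 4` prime to `N`, `r ≥ r₀(u)` odd,
`k ≥ k₀(u, r)`. -/
def OddFamily (N : ℕ) (A : ℕ → Prop) : Prop :=
  ∀ u : ℕ, u % 4 = 3 → Nat.Coprime u N → ∃ r₀ : ℕ, ∀ r ≥ r₀, Odd r →
    ∃ k₀ : ℕ, ∀ k ≥ k₀, A (u * r * (2 * k + 1))

/-- The degrees of the splittings: let `I` be the index of `α`. If `twPr α χ n` splits, then `I`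
divides `n`. If `n` is large, then it splits if `I` is odd and divides `n`, for all `χ`, and it splits
for `χ = 1` if `2 I` divides `n`. -/
def SplitDegrees {B W : Type} [Group B] [Group W] (α : B →* W) (I : ℕ) : Prop :=
  (∀ (χ : W →* ℤˣ) (n : ℕ), TwSplit α χ n → I ∣ n) ∧
    ∃ n₀ : ℕ, ∀ n ≥ n₀, (Odd I → I ∣ n → ∀ χ : W →* ℤˣ, TwSplit α χ n) ∧
      (2 * I ∣ n → TwSplit α 1 n)

end Pool.Agent.N70.ES.Voc
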