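import Mathlib
import Pool.Agent.N70.ES.VocW
import Pool.Agent.N70.ES.Fin

/-!
Translations.
-/

set_option autoImplicit false
set_option linter.unusedSectionVars false
set_option linter.unusedSimpArgs false

namespace Pool.Agent.N70.ES

open Pool.Agent.H391R2 Pool.Agent.H391R2.T4
open Pool.Agent.N70.EP.Voc
open Pool.Agent.N70.EQ.Voc (KerClass)
open Pool.Agent.N70.EO.Voc (AlmostAllNumbers)
open Pool.Agent.N70.ES.Voc
open Pool.Agent.Y793 (AWr AltTw twProj)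
open Pool.Agent.TH444.TW (RSK)
open Pool.Agent.N600.UK (cl_of_center)
open Pool.Agent.N70.EP (twE rsk_twPr over_of_weak weak_of_over weak_tw' regular_iff isIndex_of)
open Pool.Agent.N70.EO (aan_mono aan_and aan_iff aan_large idx_thm8 hypO setC twIff_of)

section index

variable (K L : Type) [Field K] [CharZero K] [Field L] [Algebra K L]
    [FiniteDimensional K L] [IsGalois K L] {B : Type} [Group B]
    (α : B →* (L ≃ₐ[K] L))

theorem tw_weak_iff (χ : (L ≃ₐ[K] L) →* ℤˣ) (n : ℕ) :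
    TwWeak α χ n ↔ WeakSol K L (AltTw α χ n) (twProj α χ n) := by
  refine ⟨weak_tw' K L α χ n, fun h => over_of_weak K L _ ?_⟩
  exact weakSol_map _ _ ((twE α χ n).symm : AltTw α χ n →* TwPow α χ n) (fun _ => rfl) h

variable [Finite B]

theorem tw_reg_weak (χ : (L ≃ₐ[K] L) →* ℤˣ) (n : ℕ) (h : TwRegular α χ n) : TwWeak α χ n := by
  have hW : Finite (Wr B n) := finite_wr B n
  exact (tw_weak_iff K L α χ n).2
    (Pool.Agent.N600.NS.weak_of_reg K L _ _ ((regular_iff K L α χ n).1 h))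

/-- Regular solutions are equivalent to weak solutions. -/
theorem voc_dens9 (hα : Function.Surjective α) :
    AlmostAllNumbers (fun n => ∀ χ : (L ≃ₐ[K] L) →* ℤˣ, TwRegular α χ n ↔ TwWeak α χ n) :=
  aan_mono (weak_dens α hypS hα) fun n hn χ => ⟨tw_reg_weak K L α χ n,
    fun h => (regular_iff K L α χ n).2 (hn χ ((tw_weak_iff K L α χ n).1 h))⟩

/-- The degrees of the weak solutions. -/
theorem voc_index9 (hα : Function.Surjective α) :
    ∃ I : ℕ, IsIndex α I ∧ (∀ (χ : (L ≃ₐ[K] L) →* ℤˣ) (n : ℕ), TwWeak α χ n → I ∣ n) ∧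
      ∃ n₀ : ℕ, ∀ n ≥ n₀, (Odd I → I ∣ n → ∀ χ : (L ≃ₐ[K] L) →* ℤˣ, TwWeak α χ n) ∧
        (2 * I ∣ n → TwWeak α 1 n) := by
  obtain ⟨I, hI0, hI, h1, n₀, hn₀⟩ := weak_large α hypS hα
  refine ⟨I, isIndex_of K L α hI0 hI, fun χ n h => h1 χ n ((tw_weak_iff K L α χ n).1 h), n₀,
    fun n hn => ⟨fun h2 h3 χ => (tw_weak_iff K L α χ n).2 ((hn₀ n hn).1 h2 h3 χ),
      fun h2 => (tw_weak_iff K L α 1 n).2 ((hn₀ n hn).2 h2)⟩⟩

/-- Explicit degrees, even. -/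
theorem voc_even9 (hα : Function.Surjective α) (χ : (L ≃ₐ[K] L) →* ℤˣ) (q : ℕ) (hq : Even q)
    (hq4 : 4 ≤ q) (hw : TwWeak α χ q) : ∃ r₀ : ℕ, ∀ r ≥ r₀, Odd r → ∃ k₀ : ℕ, ∀ k ≥ k₀,
      TwRegular α χ (q * r * (2 * k + 1)) := by
  obtain ⟨r₀, hr₀⟩ := t9 K L α hypO.base hα χ q hq hq4 ((tw_weak_iff K L α χ q).1 hw)
  refine ⟨r₀, fun r hr hodd => ?_⟩
  obtain ⟨k₀, hk₀⟩ := hr₀ r hr hodd
  exact ⟨k₀, fun k hk => (regular_iff K L α χ _).2 (hk₀ k hk)⟩

/-- `I` is determined by `IsIndex`. -/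
theorem isIndex_unique {E : Type} [Group E] (π : E →* (L ≃ₐ[K] L)) {I I' : ℕ}
    (h : IsIndex π I) (h' : IsIndex π I') : I = I' :=
  Nat.dvd_antisymm ((h'.2 I).2 ((h.2 I).1 dvd_rfl)) ((h.2 I').2 ((h'.2 I').1 dvd_rfl))

/-- Everything. -/
theorem voc_full (hα : Function.Surjective α) :
    AlmostAllNumbers (fun n => ∀ χ : (L ≃ₐ[K] L) →* ℤˣ, TwRegular α χ n ↔ TwWeak α χ n) ∧
      ∃ I : ℕ, IsIndex α I ∧
        (∀ (χ : (L ≃ₐ[K] L) →* ℤˣ) (n : ℕ), TwWeak α χ n → I ∣ n) ∧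
        (∃ n₀ : ℕ, ∀ n ≥ n₀, (Odd I → I ∣ n → ∀ χ : (L ≃ₐ[K] L) →* ℤˣ, TwWeak α χ n) ∧
          (2 * I ∣ n → TwWeak α 1 n)) ∧
        (∀ (χ : (L ≃ₐ[K] L) →* ℤˣ) (q : ℕ), Even q → 4 ≤ q → TwWeak α χ q →
          ∃ r₀ : ℕ, ∀ r ≥ r₀, Odd r → ∃ k₀ : ℕ, ∀ k ≥ k₀, TwRegular α χ (q * r * (2 * k + 1))) ∧
        (∀ q : ℕ, Even q → 4 ≤ q → ∃ r₀ : ℕ, ∀ r ≥ r₀, I ∣ r → ∃ k₀ : ℕ, ∀ k ≥ k₀,
          ∀ χ : (L ≃ₐ[K] L) →* ℤˣ, Odd r ∨ χ = 1 → TwRegular α χ (q * r * (2 * k + 1))) ∧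
        ∀ u : ℕ, u % 4 = 3 → Nat.Coprime u (Nat.card α.ker) → ∃ r₀ : ℕ, ∀ r ≥ r₀, Odd r →
          I ∣ r → ∃ k₀ : ℕ, ∀ k ≥ k₀, ∀ χ : (L ≃ₐ[K] L) →* ℤˣ,
            TwRegular α χ (u * r * (2 * k + 1)) := by
  refine ⟨voc_dens9 K L α hα, ?_⟩
  obtain ⟨I, hI, h1, h2⟩ := voc_index9 K L α hα
  obtain ⟨I', hI', -, -, -, h3, h4⟩ := EO.voc_index8 K L α hα
  have h5 : I' = I := isIndex_unique K L α hI' hI
  subst h5
  exact ⟨I', hI, h1, h2, fun χ q hq hq4 hw => voc_even9 K L α hα χ q hq hq4 hw, h3, h4⟩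

end index

/-- Kernels `G ≀ A_n`. -/
theorem voc_ker9 (K L : Type) [Field K] [CharZero K] [Field L] [Algebra K L]
    [FiniteDimensional K L] [IsGalois K L] (G : Type) [Group G] (hG : Centreless G) :
    AlmostAllNumbers (fun n => ∀ (X : Type) [Group X] (α : X →* (L ≃ₐ[K] L)),
      Function.Surjective α → Nonempty (α.ker ≃* AltWreath G n) →
        (RegularSolution α ↔ WeakSolutionOver α K)) := by
  have h1 := hG.finite
  have h2 := hG.nontrivial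
  refine aan_mono (ker_dens K L G hypS (cl_of_center hG.center)) fun n hn X _ α hα hι => ?_
  have hW : Finite (Wr G n) := finite_wr G n
  have hA : Finite (AltWreath G n) := Finite.of_injective Subtype.val Subtype.val_injective
  obtain ⟨ι⟩ := hι
  have hk : Finite α.ker := Finite.of_equiv _ ι.symm.toEquiv
  have hX : Finite X := Pool.Agent.TH59.WX.finite_of_kernel α ι.symm
  refine ⟨fun h => over_of_weak K L α (Pool.Agent.N600.NS.weak_of_reg K L X α h), fun h => ?_⟩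
  exact hn X α hα ⟨ι⟩ (weak_of_over K L α h)

/-- A proper solution gives a weak solution. -/
theorem weak_of_proper {K L X : Type} [Field K] [Field L] [Algebra K L]
    [FiniteDimensional K L] [IsGalois K L] [Group X] (α : X →* (L ≃ₐ[K] L))
    (h : ProperSolution α) : WeakSolutionOver α K := by
  obtain ⟨F, i1, i2, i3, i4, i5, i6, γ, hγ⟩ := h
  exact over_of_weak K L α ⟨F, i1, i2, i5, i6, i3, i4, (γ : (F ≃ₐ[K] F) →* X), hγ⟩

/-- Kernels `G ≀ A_n`, Hilbertian fields. -/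
theorem voc_kerh9 (K L : Type) [Field K] [CharZero K] [Field L] [Algebra K L]
    [FiniteDimensional K L] [IsGalois K L] (hK : HilbField K) (G : Type) [Group G]
    (hG : Centreless G) :
    AlmostAllNumbers (fun n => ∀ (X : Type) [Group X] (α : X →* (L ≃ₐ[K] L)),
      Function.Surjective α → Nonempty (α.ker ≃* AltWreath G n) →
        (ProperSolution α ↔ WeakSolutionOver α K)) := by
  have h1 := hG.finite
  refine aan_mono (voc_ker9 K L G hG) fun n hn X _ α hα hι => ?_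
  have hW : Finite (Wr G n) := finite_wr G n
  have hA : Finite (AltWreath G n) := Finite.of_injective Subtype.val Subtype.val_injective
  obtain ⟨ι⟩ := hι
  have hk : Finite α.ker := Finite.of_equiv _ ι.symm.toEquiv
  have hX : Finite X := Pool.Agent.TH59.WX.finite_of_kernel α ι.symm
  refine ⟨weak_of_proper α, fun h => ?_⟩
  exact Pool.Agent.TH59.WX.hil_of_reg K L X hK α ((hn X α hα ⟨ι⟩).2 h)

theorem spl_of {H B : Type} [Group H] [Group B] (α : B →* H) (χ : H →* ℤˣ) (n : ℕ)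
    (h : TwSplit α χ n) : ∃ s : H →* AltTw α χ n, ∀ w, twProj α χ n (s w) = w := by
  obtain ⟨s, hs⟩ := h
  exact ⟨(twE α χ n : TwPow α χ n →* AltTw α χ n).comp s, hs⟩

theorem of_spl {H B : Type} [Group H] [Group B] (α : B →* H) (χ : H →* ℤˣ) (n : ℕ)
    (h : ∃ s : H →* AltTw α χ n, ∀ w, twProj α χ n (s w) = w) : TwSplit α χ n := by
  obtain ⟨s, hs⟩ := h
  exact ⟨((twE α χ n).symm : AltTw α χ n →* TwPow α χ n).comp s, hs⟩

theorem setC_dens9 {H B : Type} [Group H] [Finite H] [Group B] [Finite B] (α : B →* H)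
    (hα : Function.Surjective α) :
    AlmostAllNumbers (fun n => ∀ χ : H →* ℤˣ, TwSplit α χ n → n ∈ setC α χ) :=
  aan_mono (split_dens hypS α hα) fun n hn χ h => rsk_twPr α χ n (hn χ (spl_of α χ n h))

theorem largeHom9 : LargeHom (fun _ _ _ _ α χ => setC α χ) := by
  intro W B _ _ _ _ α hα I hI
  refine aan_mono (aan_and (setC_dens9 α hα) (EO.setC_dens α hα I hI)) fun n hn χ h => ?_
  rcases h with h | ⟨h1, h2⟩ | ⟨rfl, h2⟩
  · exact hn.1 χ h
  · exact hn.2.1 h1 h2 χ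
  · exact hn.2.2 h2

/-- The general case. -/
theorem twIff_dens9 {H B : Type} [Group H] [Finite H] [Group B] [Finite B] (α : B →* H)
    (hα : Function.Surjective α) :
    AlmostAllNumbers (fun n => ∀ χ : H →* ℤˣ, TwSplit α χ n → TwIff α χ n) := by
  refine aan_mono (aan_and (setC_dens9 α hα) (aan_large 2 fun n hn => hn))
    fun n hn χ h => twIff_of α hα χ n hn.2 (hn.1 χ h)

end Pool.Agent.N70.ES
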