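import Mathlib
import Pool.Agent.N70.ES.VocWB
import Pool.Agent.N70.ES.Stm2
import Pool.Agent.N70.ES.GS
import Pool.Agent.N394.ES.WG
import Pool.Agent.N530.ES.GI
import Pool.Agent.N878.ES.GD
import Pool.Agent.N459.ES.GN

/-!
The degrees of the splittings.
-/

set_option autoImplicit false
set_option linter.unusedSectionVars false
set_option linter.unusedSimpArgs false

namespace Pool.Agent.N70.ES

open Pool.Agent.N70.EP.Voc
open Pool.Agent.N70.ES.Voc

theorem splitDegrees_of (hgs : St_gs) (hgn : St_gn) {W B : Type} [Group W] [Finite W] [Group B]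
    [Finite B] (α : B →* W) (hα : Function.Surjective α) (I : ℕ) (hI : IsSplittingIndex α I) :
    SplitDegrees α I := by
  refine ⟨fun χ n h => hgs W B α χ n I (spl_of α χ n h) ((hI.2 I).1 dvd_rfl), ?_⟩
  obtain ⟨n₀, hn₀⟩ := hgn W B α hα I hI.1 hI.2
  exact ⟨n₀, fun n hn => ⟨fun h1 h2 χ => of_spl α χ n ((hn₀ n hn).1 h1 h2 χ),
    fun h1 => of_spl α 1 n ((hn₀ n hn).2 h1)⟩⟩

theorem splitDegrees {W B : Type} [Group W] [Finite W] [Group B]
    [Finite B] (α : B →* W) (hα : Function.Surjective α) (I : ℕ) (hI : IsSplittingIndex α I) :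
    SplitDegrees α I :=
  splitDegrees_of t_gs (Pool.Agent.N459.ES.t_gno Pool.Agent.N394.ES.t_wg Pool.Agent.N530.ES.t_gi
    Pool.Agent.N878.ES.t_gd) α hα I hI

end Pool.Agent.N70.ES
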