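import Mathlib
import Pool.Agent.N70.ES.VocWC
import Pool.Agent.N70.ES.Stm4
import Pool.Agent.Y793.Ml

/-!
The groups `G ≀ A_n` over number fields, with a subgroup of small index.
-/

set_option autoImplicit false
set_option linter.unusedSectionVars false

namespace Pool.Agent.N70.ES

open Pool.Agent.H391R2 Pool.Agent.H391R2.T4
open Pool.Agent.N70.EP.Voc
open Pool.Agent.N70.EO.Voc (AlmostAllNumbers)
open Pool.Agent.N70.ES.Voc
open Pool.Agent.Y793 (AWr awr_data gal_of_real)
open Pool.Agent.N70.EO (aan_mono aan_and aan_large)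

/-- The data needed for Malle's conjecture for `C₂ ≀ H`. -/
structure MlData (H : Type) [Group H] : Prop where
  finite : Finite H
  card : 2 ≤ Nat.card H
  core : ∃ U : Subgroup H, U.normalCore = ⊥ ∧ 8 * U.index * (U.index + 1) ≤ Nat.card H

theorem alt_data (A : Type) [Group A] [Finite A] (n : ℕ) (hn : 10 ≤ n) :
    MlData (AltWreath A n) := by
  obtain ⟨hc, hU⟩ := awr_data A n hn
  have hW : Finite (Wr A n) := finite_wr A n
  exact ⟨Finite.of_injective Subtype.val Subtype.val_injective, hc, hU⟩

/-- The groups `A ≀ A_n`. -/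
theorem alt_malle (A : Type) [Group A] [Finite A] :
    AlmostAllNumbers (fun n => MlData (AltWreath A n) ∧ ∀ (K : Type) [Field K] [NumberField K],
      (TH444.ML.Gal K (AlgebraicClosure K) (AltWreath A n)).Nonempty) := by
  refine aan_mono (aan_and (EO.alt_dens8 A) (aan_large 10 fun n hn => hn)) fun n hn => ?_
  have hd := alt_data A n hn.2
  refine ⟨hd, fun K _ _ => ?_⟩
  have h1 := hd.finite
  exact gal_of_real K (AlgebraicClosure K) _ ((hn.1 K).2.2 inferInstance)

/-- The alternating fibre powers over `W`. -/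
theorem tw_malle (htd : St_td) {W B : Type} [Group W] [Finite W] [Group B] [Finite B] (α : B →* W)
    (hα : Function.Surjective α) :
    AlmostAllNumbers (fun n => ∀ χ : W →* ℤˣ, TwSplit α χ n → MlData (TwPow α χ n) ∧
      ∀ (K : Type) [Field K] [NumberField K], Realizable K W →
        (TH444.ML.Gal K (AlgebraicClosure K) (TwPow α χ n)).Nonempty) := by
  obtain ⟨n₀, hn₀⟩ := htd W B α hα
  refine aan_mono (aan_and (twIff_dens9 α hα) (aan_large n₀ fun n hn => hn))
    fun n hn χ hs => ?_
  obtain ⟨h1, h2⟩ := hn₀ n hn.2 χ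
  have hW : Finite (Wr B n) := finite_wr B n
  have hf : Finite (TwPow α χ n) := Finite.of_injective Subtype.val Subtype.val_injective
  refine ⟨⟨hf, h1, h2⟩, fun K _ _ hK => ?_⟩
  exact gal_of_real K (AlgebraicClosure K) _ (((hn.1 χ hs K).2.2 inferInstance).2 hK)

end Pool.Agent.N70.ES
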