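import Mathlib
import Pool.Agent.N70.ES.Ml
import Pool.Agent.N624.ES.TD

set_option autoImplicit false

namespace Pool.Agent.N70.ES

theorem htd : St_td := Pool.Agent.N624.ES.TD.t_td

end Pool.Agent.N70.ES
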